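import Mathlib
import Pool.Agent.V11306.SPc

/-!
# MP_8f4482, Q1: the signs of the twisted products, `p ≡ 5 (mod 12)`, `p ≡ 11, 23 (mod 24)`
-/

set_option autoImplicit false

namespace Pool.Agent.Results.MP_8f4482_nt.Signs

open NumberField

/-- The polynomial `S_p(x) = ∏_{k=1}^{(p-1)/2} (x - exp (2 π i k² / p))`. -/
noncomputable def S (p : ℕ) (x : ℂ) : ℂ :=
  ∏ k ∈ Finset.Icc 1 ((p - 1) / 2), (x - Complex.exp (2 * Real.pi * Complex.I * (k : ℂ) ^ 2 / p))

/-- `N_p`, the number of integers `1 ≤ k < p / 12` with `(k/p) = 1`. -/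
noncomputable def N (p : ℕ) [Fact p.Prime] : ℕ :=
  ((Finset.Ico 1 p).filter (fun k : ℕ => 12 * k < p ∧ legendreSym p k = 1)).card

/-- `T_s(p) = (-1)^(⌊h/2⌋ + N_p) exp (2 π i s · 5 (p - 1) / 48) S_p(exp (2 π i s / 12))`. -/
noncomputable def T (p : ℕ) [Fact p.Prime] (h : ℕ) (s : ℤ) : ℂ :=
  (-1) ^ (h / 2 + N p) * Complex.exp (2 * Real.pi * Complex.I * s * (5 * (p - 1) / 48)) *
    S p (Complex.exp (2 * Real.pi * Complex.I * s / 12))

/-- `z` is a positive real number. -/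
def IsPos (z : ℂ) : Prop := ∃ r : ℝ, 0 < r ∧ z = r

open Pool.Agent.V11306.SPb Pool.Agent.V11306.SP Pool.Agent.V11306.Toep

variable {p : ℕ} [hpf : Fact p.Prime]

lemma T_pos (h : ℕ) (m : ℕ) (hm : p = 2 * m + 1) : T p h 1 = (-1) ^ (h / 2 + N12 p) *
    Complex.exp (2 * Real.pi * Complex.I * (5 * (p - 1)) / 48) * SR p xx := by
  rw [T, Int.cast_one, mul_one, ← S_eq m hm]
  have e1 : 2 * (Real.pi : ℂ) * Complex.I * (5 * (p - 1) / 48) =
      2 * Real.pi * Complex.I * (5 * (p - 1)) / 48 := by ring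
  rw [e1]
  rfl

lemma T_neg (h : ℕ) (m : ℕ) (hm : p = 2 * m + 1) : T p h (-1) = (-1) ^ (h / 2 + N12 p) *
    Complex.exp (-(2 * Real.pi * Complex.I * (5 * (p - 1)) / 48)) *
      SR p ((starRingEnd ℂ) xx) := by
  rw [T, ← S_eq m hm, xx_conj]
  have e1 : 2 * (Real.pi : ℂ) * Complex.I * (((-1 : ℤ)) : ℂ) * (5 * (p - 1) / 48) =
      -(2 * Real.pi * Complex.I * (5 * (p - 1)) / 48) := by push_cast; ring
  have e2 : 2 * (Real.pi : ℂ) * Complex.I * (((-1 : ℤ)) : ℂ) / 12 =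
      -(2 * Real.pi * Complex.I / 12) := by push_cast; ring
  rw [e1, e2]
  rfl

lemma case_five (hp3 : 3 < p) (h5 : p % 12 = 5) (h : ℕ) (hh : h / 2 % 2 = (p - 1) / 4 % 2) :
    IsPos (T p h 1) ∧ IsPos (T p h (-1)) := by
  have h4 : p % 4 = 1 := by omega
  obtain ⟨t, ht⟩ : ∃ t, p = 4 * t + 1 := ⟨p / 4, by omega⟩
  have hm : p = 2 * (2 * t) + 1 := by omega
  obtain ⟨c, hc, e⟩ := T_one hp3 (2 * t) hm h 0 (by rw [sum_one h4]; simp) 5
  have hT : T p h 1 = c := by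
    rw [T_pos h _ hm, e]
    have e1 : (-1 : ℂ) ^ (h / 2) = (-1) ^ t := by
      rcases Nat.even_or_odd (h / 2) with h6 | h6
      · have h7 : Even t := by rw [Nat.even_iff] at h6 ⊢; omega
        rw [h6.neg_one_pow, h7.neg_one_pow]
      · have h7 : Odd t := by rw [Nat.odd_iff] at h6 ⊢; omega
        rw [h6.neg_one_pow, h7.neg_one_pow]
    have e2 : Complex.exp (((5 : ℂ) + 1) * (((2 * t : ℕ) : ℂ) * Real.pi / 12) * Complex.I) =
        (-1) ^ t := by
      have : ((5 : ℂ) + 1) * (((2 * t : ℕ) : ℂ) * Real.pi / 12) * Complex.I =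
          t * (Real.pi * Complex.I) := by push_cast; ring
      rw [this, Complex.exp_nat_mul, Complex.exp_pi_mul_I]
    rw [e1, e2]
    linear_combination (c : ℂ) * negone_sq t
  refine ⟨⟨c, hc, hT⟩, ⟨c, hc, ?_⟩⟩
  have h5 : (starRingEnd ℂ) (T p h 1) = T p h (-1) := by
    have h6 := twist_conj (p := p) h 5 _ hm
    rw [Complex.ofReal_ofNat] at h6
    rw [T_pos h _ hm, T_neg h _ hm, map_mul, h6, SR_conj1 h4]
  rw [← h5, hT, Complex.conj_ofReal]

lemma case_eleven (hp3 : 3 < p) (h11 : p % 12 = 11) (h : ℕ) (hodd : h % 2 = 1)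
    (hh : ∑ u : ZMod p, quadraticChar (ZMod p) u * (u.val : ℤ) = -(p * (h : ℤ))) :
    (p % 24 = 11 → IsPos (T p h 1) ∧ IsPos (-T p h (-1))) ∧
    (p % 24 = 23 → IsPos (-T p h 1) ∧ IsPos (-T p h (-1))) := by
  obtain ⟨j, hj⟩ : ∃ j, p = 12 * j + 11 := ⟨p / 12, by omega⟩
  have hm : p = 2 * (6 * j + 5) + 1 := by omega
  obtain ⟨c, hc, e⟩ := T_one hp3 (6 * j + 5) hm h h hh 5
  have hexp : Complex.exp (((5 : ℂ) + 1) * (((6 * j + 5 : ℕ) : ℂ) * Real.pi / 12) * Complex.I) =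
      (-1) ^ j * Complex.I := by
    have : ((5 : ℂ) + 1) * (((6 * j + 5 : ℕ) : ℂ) * Real.pi / 12) * Complex.I =
        ((j + 1 : ℤ) : ℂ) * (2 * Real.pi * Complex.I) + (j * (Real.pi * Complex.I) +
          Real.pi / 2 * Complex.I) := by push_cast; ring
    rw [this, Complex.exp_add, exp_two_pi, one_mul, Complex.exp_add, Complex.exp_nat_mul,
      Complex.exp_pi_mul_I, Complex.exp_pi_div_two_mul_I]
  have hT : T p h 1 = (-1) ^ j * c := by
    rw [T_pos h _ hm, e, negI_pow h hodd, hexp]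
    linear_combination (-(c : ℂ) * (-1) ^ j) * Complex.I_sq
  obtain ⟨d, hd, e5⟩ := conj_eleven (p := p) (by omega)
  have hp1 : (p : ℂ) - 1 = 2 * (6 * j + 5 : ℕ) := by rw [hm]; push_cast; ring
  have hT2 : T p h (-1) = - (d * c) := by
    set E := Complex.exp (2 * Real.pi * Complex.I * (5 * (p - 1)) / 48) with hE
    have e6 : Complex.exp (-(2 * Real.pi * Complex.I * (5 * (p - 1)) / 48)) * xx = (-1) ^ j * E := by
      rw [xx, hE, ← Complex.exp_add]
      have h8 : -(2 * (Real.pi : ℂ) * Complex.I * (5 * (p - 1)) / 48) +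
          2 * Real.pi * Complex.I / 12 = (-(3 * j + 2 : ℤ) : ℂ) * (2 * Real.pi * Complex.I) +
          (j * (Real.pi * Complex.I) + 2 * Real.pi * Complex.I * (5 * (p - 1)) / 48) := by
        rw [hp1]; push_cast; ring
      rw [h8, Complex.exp_add, Complex.exp_add, Complex.exp_nat_mul, Complex.exp_pi_mul_I]
      have h9 := exp_two_pi (-(3 * j + 2 : ℤ))
      push_cast at h9 ⊢
      rw [h9, one_mul]
    rw [T_neg h _ hm, e5]
    rw [T_pos h _ hm, ← hE] at hT
    have h10 : (-1 : ℂ) ^ j * (-1) ^ j = 1 := negone_sq j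
    linear_combination (-(d : ℂ) * (-1) ^ (h / 2 + N12 p) * SR p xx) * e6 - (d : ℂ) * (-1) ^ j * hT -
      (d : ℂ) * c * h10
  constructor
  · intro h24
    have hje : Even j := by rw [Nat.even_iff]; omega
    rw [hje.neg_one_pow, one_mul] at hT
    exact ⟨⟨c, hc, hT⟩, ⟨d * c, by positivity, by rw [hT2]; push_cast; ring⟩⟩
  · intro h24
    have hjo : Odd j := by rw [Nat.odd_iff]; omega
    rw [hjo.neg_one_pow] at hT
    exact ⟨⟨c, hc, by rw [hT]; ring⟩, ⟨d * c, by positivity, by rw [hT2]; push_cast; ring⟩⟩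

/-- **Q1 holds.** For every prime `p > 3`, with `K = ℚ(√-p)` and `h(-p)` its class number: the
numbers `T_{±1}(p)` are positive if `p ≡ 5 (mod 12)`; `T_{+1}(p) > 0 > T_{-1}(p)` if
`p ≡ 11 (mod 24)`; both are negative if `p ≡ 23 (mod 24)`. -/
theorem result (p : ℕ) [Fact p.Prime] (hp : 3 < p) (K : Type) [Field K] [NumberField K]
    (h2 : Module.finrank ℚ K = 2) (α : K) (hα : α ^ 2 = -(p : K)) :
    (p % 12 = 5 → IsPos (T p (classNumber K) 1) ∧ IsPos (T p (classNumber K) (-1))) ∧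
    (p % 24 = 11 → IsPos (T p (classNumber K) 1) ∧ IsPos (-T p (classNumber K) (-1))) ∧
    (p % 24 = 23 → IsPos (-T p (classNumber K) 1) ∧ IsPos (-T p (classNumber K) (-1))) := by
  have hodd := (Fact.out : p.Prime).eq_two_or_odd
  refine ⟨?_, ?_, ?_⟩
  · intro h1
    exact case_five hp h1 _ (Pool.Agent.V11306.H4.half_class (by omega) K h2 α hα)
  · intro h3
    exact (case_eleven hp (by omega) _
      (mordell (by omega) hp ((p - 1) / 2) (by omega) K h2 α hα).1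
      (class_val (by omega) hp K h2 α hα)).1 h3
  · intro h3
    exact (case_eleven hp (by omega) _
      (mordell (by omega) hp ((p - 1) / 2) (by omega) K h2 α hα).1
      (class_val (by omega) hp K h2 α hα)).2 h3

end Pool.Agent.Results.MP_8f4482_nt.Signs
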